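import Pool.Agent.H815.QC.Stm3

/-!
# QC-L4: injectivity on the second side
-/

set_option autoImplicit false

namespace Pool.Agent.H947.QC

open Pool.Agent.Y110.FJ Pool.Agent.T2H65.GP Pool.Agent.H815.QC

theorem L4_proof (hR3 : S_R3) (hR4 : S_R4) (hR7 : S_R7) (hR9 : S_R9) : Pool.Agent.H815.QC.S_L4 := by
  intro N _ V _ Λ β S hβ hInd w w' y y' hw hw' hy hy' hAs
  -- the two classes are the same
  have h1 := (hR3 V Λ N β hβ y (lc Λ S w) y' (lc Λ S w') hAs.symm.le).1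
  have h2 := (hR3 V Λ N β hβ y' (lc Λ S w') y (lc Λ S w) hAs.le).1
  have hEq : lc Λ S w = lc Λ S w' := funext fun v => propext ⟨h2 v, h1 v⟩
  refine ⟨hEq, ?_⟩
  rw [← hEq] at hAs
  obtain ⟨A, hA⟩ : ∃ A, A = lc Λ S w := ⟨_, rfl⟩
  rw [← hA] at hAs ⊢
  have hwA : A w := by
    rw [hA]
    exact ⟨hw, fun u => Iff.rfl⟩
  have hlk : ∀ u, Λ.Adj w u ↔ pp Λ A u := by
    intro u
    constructor
    · intro hu s hs
      rw [hA] at hs
      exact ((hs.2 u).2 hu).symm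
    · intro hu
      exact (hu w hwA).symm
  obtain ⟨m, hm, n, hn⟩ := hR4 V Λ N β hβ y w
  have hmem : gp Λ w m ∈ std Λ (B2 V) A := vg_le_std Λ (B2 V) hwA ⟨_, rfl⟩
  have hn1 : n ∈ As Λ β y A := by
    refine mem_pb.2 ?_
    have e : y⁻¹ * β n * y = gp Λ w m := by
      rw [hn]
      group
    rw [e]
    exact hmem
  rw [hAs] at hn1
  have hn2 : y'⁻¹ * β n * y' ∈ std Λ (B2 V) A := mem_pb.1 hn1
  have ht : (y⁻¹ * y')⁻¹ * gp Λ w m * (y⁻¹ * y') ∈ std Λ (B2 V) A := by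
    have e : (y⁻¹ * y')⁻¹ * gp Λ w m * (y⁻¹ * y') = y'⁻¹ * β n * y' := by
      rw [hn]
      group
    rw [e]
    exact hn2
  obtain ⟨_, h9⟩ := hR9 V Λ w m A (y⁻¹ * y') hm.ne' ht
  have h10 := h9 hlk
  have h11 : y⁻¹ * y' ∈ std Λ (B2 V) (pp Λ S) := mul_mem (inv_mem hy) hy'
  obtain ⟨t, htt⟩ : ∃ t, t = y⁻¹ * y' := ⟨_, rfl⟩
  rw [← htt] at h10 h11 ⊢
  have h12 : er Λ (B2 V) (fun v => pp Λ S v ∧ (A v ∨ pp Λ A v)) t = t := by
    rw [← er_er Λ (B2 V) (pp Λ S) (fun v => A v ∨ pp Λ A v) t, (mem_std Λ (B2 V)).1 h10,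
      (mem_std Λ (B2 V)).1 h11]
  refine std_mono Λ (B2 V) (T := fun v => pp Λ S v ∧ (A v ∨ pp Λ A v)) (fun v hv => ?_)
    ((mem_std Λ (B2 V)).2 h12)
  rcases hv.2 with h | h
  · exact h
  · exact absurd (h w hwA) (hInd v w hv.1 hw)

end Pool.Agent.H947.QC
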